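import Pool.Agent.helper62.LL.SpecG
import Pool.Agent.helper62.EN.All

set_option autoImplicit false

/-!
# Row KFN: bounded multiplicity
-/

open scoped MatrixGroups ContDiff Topology UpperHalfPlane
open UpperHalfPlane MeasureTheory Filter Set

namespace Pool.Agent.LL

open Pool.Agent.EN (XG MG mkX mkM fl pr)

theorem KFN_proof : KFN_stmt := by
  intro Γ hΓ
  obtain ⟨K, hK, hcov⟩ := hΓ.cocompact
  have hK4 : IsCompact (Metric.cthickening 4 K) := hK.cthickening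
  have hSfin := hΓ.discrete _ hK4
  have hX := Pool.Agent.EN.A_XFL Γ
  have hsurj : Function.Surjective (mkX Γ) := hX.2.2.2.2.1
  have hmk : ∀ g g', mkX Γ g = mkX Γ g' ↔ ∃ γ : Γ, (γ : SL(2, ℝ)) * g = g' := hX.2.2.2.2.2.2.2.2.2.2.1
  have hiso : ∀ (γ : Γ) (z w : ℍ), dist (γ • z) (γ • w) = dist z w := fun γ z w => dist_smul (γ : SL(2, ℝ)) z w
  refine ⟨{γ : Γ | ∃ z ∈ Metric.cthickening 4 K, γ • z ∈ Metric.cthickening 4 K}.ncard, fun g y => ?_⟩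
  obtain ⟨g₀, rfl⟩ := hsurj y
  obtain ⟨δ, hδ⟩ := hcov (g₀ • I)
  have hB : {γ : Γ | dist ((γ : SL(2, ℝ)) • (g₀ • I)) (g • I) ≤ 2}.Finite ∧
      {γ : Γ | dist ((γ : SL(2, ℝ)) • (g₀ • I)) (g • I) ≤ 2}.ncard ≤
        {γ : Γ | ∃ z ∈ Metric.cthickening 4 K, γ • z ∈ Metric.cthickening 4 K}.ncard := by
    rcases Set.eq_empty_or_nonempty {γ : Γ | dist ((γ : SL(2, ℝ)) • (g₀ • I)) (g • I) ≤ 2} with h | ⟨γ₀, hγ₀⟩
    · rw [h]
      exact ⟨Set.finite_empty, by rw [Set.ncard_empty]; exact Nat.zero_le _⟩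
    · have hinj : Function.Injective (fun γ : Γ => δ * γ₀⁻¹ * γ * δ⁻¹) := by
        intro a b hab
        exact mul_left_cancel (mul_right_cancel hab)
      have hmaps : ∀ γ ∈ {γ : Γ | dist ((γ : SL(2, ℝ)) • (g₀ • I)) (g • I) ≤ 2},
          (fun γ : Γ => δ * γ₀⁻¹ * γ * δ⁻¹) γ ∈
            {γ : Γ | ∃ z ∈ Metric.cthickening 4 K, γ • z ∈ Metric.cthickening 4 K} := by
        intro γ hγ
        refine ⟨δ • (g₀ • I), Metric.self_subset_cthickening K hδ, ?_⟩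
        have e : (δ * γ₀⁻¹ * γ * δ⁻¹) • (δ • (g₀ • I)) = δ • (γ₀⁻¹ • (γ • (g₀ • I))) := by
          rw [mul_smul, inv_smul_smul, mul_smul, mul_smul]
        change (δ * γ₀⁻¹ * γ * δ⁻¹) • (δ • (g₀ • I)) ∈ _
        rw [e]
        refine Metric.mem_cthickening_of_dist_le _ _ _ _ hδ ?_
        have h1 : dist (δ • (γ₀⁻¹ • (γ • (g₀ • I)))) (δ • (g₀ • I)) = dist (γ • (g₀ • I)) (γ₀ • (g₀ • I)) := by
          rw [hiso, ← hiso γ₀ (γ₀⁻¹ • (γ • (g₀ • I))), smul_inv_smul]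
        rw [h1]
        have h2 : dist (γ • (g₀ • I)) (g • I) ≤ 2 := hγ
        have h3 : dist (γ₀ • (g₀ • I)) (g • I) ≤ 2 := hγ₀
        calc dist (γ • (g₀ • I)) (γ₀ • (g₀ • I)) ≤ dist (γ • (g₀ • I)) (g • I) + dist (γ₀ • (g₀ • I)) (g • I) :=
              dist_triangle_right _ _ _
          _ ≤ 4 := by linarith
      refine ⟨?_, Set.ncard_le_ncard_of_injOn _ hmaps hinj.injOn hSfin⟩
      exact Set.Finite.of_injOn (f := fun γ : Γ => δ * γ₀⁻¹ * γ * δ⁻¹) hmaps hinj.injOn hSfin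
  have hsub : {h : SL(2, ℝ) | mkX Γ g₀ = mkX Γ (g * h) ∧ dist (h • I) I ≤ 2} ⊆
      (fun γ : Γ => g⁻¹ * (γ : SL(2, ℝ)) * g₀) '' {γ : Γ | dist ((γ : SL(2, ℝ)) • (g₀ • I)) (g • I) ≤ 2} := by
    rintro h ⟨h1, h2⟩
    obtain ⟨γ, hγ⟩ := (hmk _ _).1 h1
    refine ⟨γ, ?_, ?_⟩
    · change dist ((γ : SL(2, ℝ)) • (g₀ • I)) (g • I) ≤ 2
      rw [← mul_smul, hγ, mul_smul, dist_smul]
      exact h2
    · change g⁻¹ * (γ : SL(2, ℝ)) * g₀ = h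
      rw [mul_assoc, hγ, inv_mul_cancel_left]
  refine ⟨(hB.1.image _).subset hsub, ?_⟩
  exact (Set.ncard_le_ncard hsub (hB.1.image _)).trans ((Set.ncard_image_le hB.1).trans hB.2)

end Pool.Agent.LL
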